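import Pool.Agent.Y124.TM.Mn
import Pool.Agent.Y124.TD.Ap3
import Pool.Agent.Y120.K.All

/-!
# The modular invariant at all tuples of distinct integers of a window
-/

set_option autoImplicit false

open PowerSeries Pool.Agent.Y113 Pool.Agent.Y120.GF Pool.Agent.Y120.GH Pool.Agent.Y120.R Pool.Agent.Y120.J Module
open Pool.Agent.TH21.MS (jj)
open Pool.Agent.Y120.K (vJ T_NRJ Zo)

namespace Pool.Agent.Y124.TM

open Pool.Agent.Y124.TL Pool.Agent.Y124.TD Pool.Agent.Y124.TG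

/-- from no relations to linear independence of the monomials -/
lemma li_mono {ι : Type} [Fintype ι] {N₁ : ℕ} {x : ι → ℂ}
    (h : ∀ P : MvPolynomial ι ℚ, P.totalDegree ≤ Fintype.card ι * N₁ → MvPolynomial.aeval x P = 0 → P = 0) :
    LinearIndependent ℚ (fun e : ι → Fin (N₁ + 1) => ∏ i, x i ^ (e i : ℕ)) := by
  classical
  rw [Fintype.linearIndependent_iff]
  intro c hc e₀
  let f : (ι → Fin (N₁ + 1)) → (ι →₀ ℕ) := fun e => Finsupp.equivFunOnFinite.symm fun i => (e i : ℕ)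
  have hf : Function.Injective f := by
    intro s s' hss
    funext i
    exact Fin.ext (DFunLike.congr_fun hss i)
  set P : MvPolynomial ι ℚ := ∑ e, MvPolynomial.monomial (f e) (c e) with hP
  have hdeg : P.totalDegree ≤ Fintype.card ι * N₁ := by
    refine (MvPolynomial.totalDegree_finsetSum _ _).trans (Finset.sup_le fun e _ => ?_)
    refine (MvPolynomial.totalDegree_monomial_le _ _).trans ?_
    have h1 : ((f e).sum fun _ => id) = ∑ i, (e i : ℕ) := by
      rw [Finsupp.sum_fintype _ _ (fun _ => rfl)]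
      rfl
    rw [h1]
    calc ∑ i, (e i : ℕ) ≤ ∑ _i : ι, N₁ := Finset.sum_le_sum fun i _ => Nat.lt_succ_iff.1 (e i).2
      _ = Fintype.card ι * N₁ := by rw [Finset.sum_const, Finset.card_univ, smul_eq_mul]
  have h0 : MvPolynomial.aeval x P = 0 := by
    rw [hP, map_sum, ← hc]
    refine Finset.sum_congr rfl fun e _ => ?_
    rw [MvPolynomial.aeval_monomial, Finsupp.prod_fintype _ _ (fun _ => pow_zero _)]
    show algebraMap ℚ ℂ (c e) * ∏ i, x i ^ (e i : ℕ) = _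
    rw [Algebra.smul_def]
  have h1 := h P hdeg h0
  have h2 : MvPolynomial.coeff (f e₀) P = c e₀ := by
    rw [hP, MvPolynomial.coeff_sum]
    rw [Finset.sum_eq_single e₀]
    · rw [MvPolynomial.coeff_monomial, if_pos rfl]
    · intro e _ he
      rw [MvPolynomial.coeff_monomial, if_neg fun h => he (hf h)]
    · intro h
      exact absurd (Finset.mem_univ _) h
  rw [← h2, h1, MvPolynomial.coeff_zero]

/-- the numbers `2 π i`, `z`, `j'(z)`, `j''(z)` -/
noncomputable def np {k : ℕ} (z : Fin k → ℂ) (o : Option (Fin k × Fin 3)) : ℂ := o.elim tpi fun v => jt (z v.1) v.2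

/-- **The main theorem** for distinct integers of one sign -/
theorem dis_main {s : Bool} (hn : T_NRJ s) (k δ D : ℕ) : ∃ E : ℕ, ∀ H t : ℕ, (H + 2) ^ E ≤ t → ∀ g : Fin k → ℕ,
    Function.Injective g → (∀ l, 1 ≤ g l ∧ g l ≤ H) →
      ∀ z : Fin k → UpperHalfPlane, (∀ l, jj (z l) = ((si s * ((t - g l : ℕ) : ℤ) : ℤ) : ℂ)) →
        ∀ (K : IntermediateField ℚ ℂ) [FiniteDimensional ℚ K], finrank ℚ K ≤ D →
          ∃ σ : Fin (k * 3 - 1) → Option (Fin k × Fin 3), Function.Injective σ ∧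
            LIb K δ (fun i => np (fun l => (z l : ℂ)) (σ i)) := by
  classical
  obtain ⟨C, hC, hsz⟩ := Pool.Agent.Y120.K.size_hS s
  obtain ⟨t₁, hpt⟩ := all_PT s
  obtain ⟨c₂, hc₂⟩ := Pool.Agent.Y678.HG.exists_two_pow (|t₁| + C + 1)
  have hlarge : ∀ {E H t g : ℕ}, (H + 2) ^ (E + (c₂ + 1)) ≤ t → g ≤ H →
      (H + 2) ^ E ≤ t ∧ t₁ ≤ ((t - g : ℕ) : ℝ) ∧ g < t ∧ (g : ℝ) + C < t := by
    intro E H t g ht hg
    have h5 := Pool.Agent.Y113.GG.sub_large (c := c₂) (by omega : c₂ + 1 ≤ E + (c₂ + 1)) ht hg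
    have h6 : (2 : ℝ) ^ c₂ ≤ ((t - g : ℕ) : ℝ) := by exact_mod_cast h5
    have h7 : |t₁| + C + 1 ≤ ((t - g : ℕ) : ℝ) := hc₂.trans h6
    have h8 : g < t := by
      have : 1 ≤ 2 ^ c₂ := Nat.one_le_two_pow
      omega
    refine ⟨(Nat.pow_le_pow_right (by omega) (by omega)).trans ht, ?_, h8, ?_⟩
    · have := le_abs_self t₁
      linarith
    · rw [Nat.cast_sub h8.le] at h7
      have := abs_nonneg t₁
      linarith
  choose Φ hΦ using fun c e : ℕ => gr_algs2 c (e + 1) 3 2 k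
  obtain ⟨N₁, hN₁⟩ := Pool.Agent.Y124.TH.core_abs (k * 3) δ D 1 (5 * k) (k * 3 + 1) Φ
  obtain ⟨E, hE⟩ := hn k (k * 3 * N₁)
  refine ⟨E + (c₂ + 1), ?_⟩
  intro H t hHt g hg hgH z hz K _ hK
  have hcard1 : Fintype.card (Fin k × Fin 3) = k * 3 := by
    rw [Fintype.card_prod, Fintype.card_fin, Fintype.card_fin]
  have hcard2 : Fintype.card (Option (Fin k × Fin 3)) = k * 3 + 1 := by
    rw [Fintype.card_option, hcard1]
  have h1 := (hlarge (E := E) (g := 0) hHt (Nat.zero_le _)).1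
  refine hN₁ K hK _ hcard2 (np fun l => (z l : ℂ)) _ hcard1 (fun i => vJ s t (g i.1) i.2)
    (fun c e W₁ h1W hzW hGR => ?_) (li_mono fun P hP h0 => hE H t h1 g hg hgH P (by rwa [hcard1] at hP) h0)
  -- the constant
  obtain ⟨V₁, hV₁, hωV, hG₁⟩ := gr_fam c 1 e W₁ h1W hGR ![((Real.log t : ℝ) : ℂ)]
  have h11 : (1 : ℂ) ∈ V₁ := hV₁ h1W
  have hLt : ((Real.log t : ℝ) : ℂ) ∈ V₁ := hωV 0
  have hpiV : tpi ∈ V₁ := hV₁ (hzW none)
  have hJV : ∀ l j, jt (z l) j ∈ V₁ := fun l j => hV₁ (hzW (some (l, j)))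
  -- the points
  have hpts : ∀ l, ∃ (γ : Matrix.SpecialLinearGroup (Fin 2) ℤ) (w : UpperHalfPlane), z l = γ • w ∧
      pS s ((t - g l : ℕ) : ℝ) 0 ≠ 0 ∧ (w : ℂ) * pS s ((t - g l : ℕ) : ℝ) 0 = pS s ((t - g l : ℕ) : ℝ) 1 ∧
      deriv jj w = -((si s * ((t - g l : ℕ) : ℤ) : ℤ) : ℂ) * pS s ((t - g l : ℕ) : ℝ) 0 ∧
      deriv (deriv jj) w = ((si s * ((t - g l : ℕ) : ℤ) : ℤ) : ℂ) *
        (pS s ((t - g l : ℕ) : ℝ) 0 ^ 2 - 2 * pS s ((t - g l : ℕ) : ℝ) 0 * pS s ((t - g l : ℕ) : ℝ) 2) := by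
    intro l
    obtain ⟨γ, w, a1, a2, a3, a4, a5⟩ := hpt ((t - g l : ℕ) : ℝ) (z l) (hlarge (E := E) hHt (hgH l).2).2.1 (by
      rw [hz l]
      push_cast
      rfl)
    refine ⟨γ, w, a1, a2, a3, ?_, ?_⟩
    · rw [a4]
      push_cast
      ring
    · rw [a5]
      push_cast
      ring
  choose γ w hγ hZ0 hw hd1 hd2 using hpts
  have hm0 : ∀ l, si s * ((t - g l : ℕ) : ℤ) ≠ 0 := by
    intro l
    have h5 := (hlarge (E := E) hHt (hgH l).2).2.2.1
    have h6 : si s ≠ 0 := by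
      unfold si
      split_ifs <;> norm_num
    have h7 : ((t - g l : ℕ) : ℤ) ≠ 0 := by
      have : t - g l ≠ 0 := by omega
      exact_mod_cast this
    exact mul_ne_zero h6 h7
  -- the free values
  have hpS : ∀ l, pS s ((t - g l : ℕ) : ℝ) = Zo (if s then 0 else 1 / 2) ((Real.log t : ℝ) : ℂ) (vJ s t (g l)) :=
    fun l => Pool.Agent.Y120.K.pS_eq hC hsz (hlarge (E := E) hHt (hgH l).2).2.2.2
  have hκ : (if s then 0 else 1 / 2 : ℂ) = ((if s then 0 else 1 / 2 : ℚ) : ℂ) := by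
    cases s <;> simp
  set f : Fin k → ℂ := fun l => vJ s t (g l) 0 with hf
  have hf2 : ∀ l, pS s ((t - g l : ℕ) : ℝ) 0 = tpi * (f l * f l) := fun l => by
    rw [hpS]
    show tpi * vJ s t (g l) 0 ^ 2 = tpi * (vJ s t (g l) 0 * vJ s t (g l) 0)
    ring
  have hf0 : ∀ l, f l ≠ 0 := by
    intro l h0
    apply hZ0 l
    rw [hf2, h0, mul_zero, mul_zero]
  have ev1 : ∀ l, pS s ((t - g l : ℕ) : ℝ) 1 = f l * (-vJ s t (g l) 2 - ((Real.log t : ℝ) : ℂ) * f l) +
      (if s then 0 else 1 / 2 : ℂ) * pS s ((t - g l : ℕ) : ℝ) 0 := fun l => by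
    rw [hpS]
    rfl
  have ev2 : ∀ l, pS s ((t - g l : ℕ) : ℝ) 2 = tpi * (f l * vJ s t (g l) 1) := fun l => by
    rw [hpS]
    rfl
  obtain ⟨V', hV', hfV, hG'⟩ := hΦ c e K V₁ h11 hG₁ (Fin k) (Fintype.card_fin k) f (fun l => by
    refine ⟨1, tpi, fun j => if j = 0 then pS s ((t - g l : ℕ) : ℝ) 0 else 0, le_rfl, tpi_ne, ?_, fun j => ?_, ?_⟩
    · exact pow_mem_mono h11 (by norm_num : 1 ≤ 3) (by rw [pow_one]; exact hpiV)
    · dsimp only
      split_ifs
      · exact (one_pt h11 (hm0 l) (hZ0 l) (hw l) (hd1 l) (hd2 l) (γ l) (hγ l) (hJV l)).2.1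
      · exact Submodule.zero_mem _
    · rw [Finset.sum_range_succ, Finset.sum_range_one]
      dsimp only
      rw [if_pos rfl, if_neg one_ne_zero, hf2]
      ring)
  have h12 : (1 : ℂ) ∈ V' := hV' h11
  have hP : ∀ l, jt (z l) 1 ≠ 0 ∧ pS s ((t - g l : ℕ) : ℝ) 0 ∈ V' ^ 3 ∧ pS s ((t - g l : ℕ) : ℝ) 1 ∈ V' ^ 3 ∧
      jt (z l) 1 * pS s ((t - g l : ℕ) : ℝ) 2 ∈ V' ^ 4 := fun l =>
    one_pt h12 (hm0 l) (hZ0 l) (hw l) (hd1 l) (hd2 l) (γ l) (hγ l) (fun j => hV' (hJV l j))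
  have hpi1 : tpi ∈ V' ^ 1 := by
    rw [pow_one]
    exact hV' hpiV
  have hf1 : ∀ l, f l ∈ V' ^ 1 := fun l => by
    rw [pow_one]
    exact hfV l
  have hJ1 : ∀ l, jt (z l) 1 ∈ V' ^ 1 := fun l => by
    rw [pow_one]
    exact hV' (hJV l 1)
  have hρ : ∀ l, tpi * f l * jt (z l) 1 ∈ V' ^ 3 := fun l =>
    pow_mem_add (a := 2) (b := 1) (pow_mem_add (a := 1) (b := 1) hpi1 (hf1 l)) (hJ1 l)
  have hcom := Pool.Agent.Y124.TH.common (W := V') (d := 5) (fun l => tpi * f l * jt (z l) 1)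
    (fun l o => vJ s t (g l) o) (fun l => pow_mem_mono h12 (by norm_num) (hρ l)) (fun l o => by
      fin_cases o
      · show tpi * f l * jt (z l) 1 * f l ∈ _
        exact pow_mem_mono h12 (by norm_num : 3 + 1 ≤ 5) (pow_mem_add (hρ l) (hf1 l))
      · show tpi * f l * jt (z l) 1 * vJ s t (g l) 1 ∈ _
        have e : tpi * f l * jt (z l) 1 * vJ s t (g l) 1 = jt (z l) 1 * pS s ((t - g l : ℕ) : ℝ) 2 := by
          rw [ev2]
          ring
        rw [e]
        exact pow_mem_mono h12 (by norm_num : 4 ≤ 5) (hP l).2.2.2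
      · show tpi * f l * jt (z l) 1 * vJ s t (g l) 2 ∈ _
        have e : tpi * f l * jt (z l) 1 * vJ s t (g l) 2 = tpi * jt (z l) 1 *
            (((if s then 0 else 1 / 2 : ℚ) : ℂ) * pS s ((t - g l : ℕ) : ℝ) 0 - pS s ((t - g l : ℕ) : ℝ) 1 -
              ((Real.log t : ℝ) : ℂ) * (f l * f l)) := by
          rw [ev1, hκ]
          ring
        rw [e]
        refine pow_mem_add (a := 2) (b := 3) (pow_mem_add (a := 1) (b := 1) hpi1 (hJ1 l))
          (Submodule.sub_mem _ (Submodule.sub_mem _ (mQ _ (hP l).2.1) (hP l).2.2.1) ?_)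
        refine pow_mem_add (a := 1) (b := 2) ?_ (pow_mem_add (a := 1) (b := 1) (hf1 l) (hf1 l))
        rw [pow_one]
        exact hV' hLt)
  exact ⟨V', ∏ l, (tpi * f l * jt (z l) 1), h12, hG',
    Finset.prod_ne_zero_iff.2 fun l _ => mul_ne_zero (mul_ne_zero tpi_ne (hf0 l)) (hP l).1, hcom.1, fun i => hcom.2 i.1 i.2⟩

/-- dropping `2 π i` -/
lemma drop_pi {K : IntermediateField ℚ ℂ} {δ r : ℕ} {ι : Type} {x : Option ι → ℂ}
    (h : ∃ σ : Fin r → Option ι, Function.Injective σ ∧ LIb K δ (fun i => x (σ i))) :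
    ∃ σ : Fin (r - 1) → ι, Function.Injective σ ∧ LIb K δ (fun i => x (some (σ i))) := by
  classical
  obtain ⟨σ, hσ, hL⟩ := h
  set S : Finset (Fin r) := Finset.univ.filter fun i => σ i ≠ none with hS'
  have hcard : r - 1 ≤ S.card := by
    have h1 : (Finset.univ.filter fun i => ¬ σ i ≠ none).card ≤ 1 := by
      refine Finset.card_le_one.2 fun i hi j hj => hσ ?_
      have h3 := (Finset.mem_filter.1 hi).2
      have h4 := (Finset.mem_filter.1 hj).2
      push Not at h3 h4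
      rw [h3, h4]
    have h5 := Finset.card_filter_add_card_filter_not (s := (Finset.univ : Finset (Fin r))) (fun i => σ i ≠ none)
    rw [Finset.card_univ, Fintype.card_fin] at h5
    have h6 : S.card = (Finset.univ.filter fun i => σ i ≠ none).card := rfl
    omega
  set φ : Fin (r - 1) → Fin r := fun i => S.orderEmbOfCardLe hcard i with hφ
  have hφi : Function.Injective φ := (S.orderEmbOfCardLe hcard).injective
  have hφS : ∀ i, φ i ∈ S := fun i => Finset.orderEmbOfCardLe_mem S hcard i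
  have hp : ∀ i, ∃ p : ι, σ (φ i) = some p := fun i =>
    Option.ne_none_iff_exists'.1 (Finset.mem_filter.1 (hφS i)).2
  choose p hp using hp
  refine ⟨p, fun i j hij => hφi (hσ ?_), ?_⟩
  · rw [hp, hp, hij]
  · have h1 := hL.comp φ hφi
    have h2 : (fun i => x (some (p i))) = fun i => x (σ (φ i)) := by
      funext i
      rw [hp]
    rw [h2]
    exact h1

/-- **All tuples** of distinct integers of a window, of one sign -/
theorem dis_win (k δ D : ℕ) : ∃ (c : ℝ) (N₀ : ℕ), 0 < c ∧ ∀ N : ℕ, N₀ ≤ N → ∀ (s : Bool) (n : Fin k → ℕ),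
    (∀ l, N ≤ n l ∧ (n l : ℝ) ≤ N + (N : ℝ) ^ c) → Function.Injective n →
      ∀ z : Fin k → UpperHalfPlane, (∀ l, jj (z l) = ((si s * (n l : ℤ) : ℤ) : ℂ)) →
        ∀ (K : IntermediateField ℚ ℂ) [FiniteDimensional ℚ K], finrank ℚ K ≤ D →
          ∃ σ : Fin (k * 3 - 1) → Option (Fin k × Fin 3), Function.Injective σ ∧
            LIb K δ (fun i => np (fun l => (z l : ℂ)) (σ i)) := by
  obtain ⟨E₁, hE₁⟩ := dis_main (Pool.Agent.Y120.K.hnr true) k δ D
  obtain ⟨E₂, hE₂⟩ := dis_main (Pool.Agent.Y120.K.hnr false) k δ D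
  obtain ⟨c, N₀, hc, hw⟩ := Pool.Agent.Y124.TD.window (max E₁ E₂) 1
  refine ⟨c, N₀, hc, fun N hN s n hn hinj z hz K _ hK => ?_⟩
  set H := ⌊(N : ℝ) ^ c⌋₊ with hH
  have hle : ∀ j, n j ≤ N + H := by
    intro j
    have h1 := (hn j).2
    have h2 : ((n j - N : ℕ) : ℝ) ≤ (N : ℝ) ^ c := by
      rw [Nat.cast_sub (hn j).1]
      linarith
    have h3 := Nat.le_floor h2
    have := (hn j).1
    omega
  have hTg : ∀ l, N + (H + 1) - (N + (H + 1) - n l) = n l := fun l => by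
    have := hle l
    omega
  have hw' := hw N hN
  have hginj : Function.Injective fun l => N + (H + 1) - n l := by
    intro l l' hll
    apply hinj
    have h5 := hle l
    have h6 := hle l'
    have hll' : N + (H + 1) - n l = N + (H + 1) - n l' := hll
    omega
  have hgH : ∀ l, 1 ≤ N + (H + 1) - n l ∧ N + (H + 1) - n l ≤ H + 1 := fun l => by
    have := (hn l).1
    have := hle l
    omega
  have hzz : ∀ l, jj (z l) = ((si s * ((N + (H + 1) - (N + (H + 1) - n l) : ℕ) : ℤ) : ℤ) : ℂ) := fun l => by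
    rw [hTg]
    exact hz l
  cases s
  · exact hE₂ (H + 1) (N + (H + 1)) (((Nat.pow_le_pow_right (by omega) (le_max_right _ _)).trans hw').trans (Nat.le_add_right _ _))
      (fun l => N + (H + 1) - n l) hginj hgH z hzz K hK
  · exact hE₁ (H + 1) (N + (H + 1)) (((Nat.pow_le_pow_right (by omega) (le_max_left _ _)).trans hw').trans (Nat.le_add_right _ _))
      (fun l => N + (H + 1) - n l) hginj hgH z hzz K hK

end Pool.Agent.Y124.TM
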