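import Pool.Agent.Y124.TM.Mn
import Pool.Agent.Y124.TD.Ap3

/-!
# The modular invariant at all tuples of integers of a window: both signs
-/

set_option autoImplicit false

open PowerSeries Pool.Agent.Y113 Pool.Agent.Y120.GF Pool.Agent.Y120.GH Pool.Agent.Y120.R Pool.Agent.Y120.J Module
open Pool.Agent.TH21.MS (jj)

namespace Pool.Agent.Y124.TM

open Pool.Agent.Y124.TL Pool.Agent.Y124.TD Pool.Agent.Y124.TG Pool.Agent.Y949.J

theorem qd (s : Bool) : ∃ (T Q : Polynomial ℤ) (F G : ℚ⟦X⟧), QD T Q F G ∧ h4 F G = hS s := by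
  obtain ⟨h1, h2, h3⟩ := hode
  obtain ⟨hF, hG⟩ := hsd
  have hFF0 : coeff 0 Pool.Agent.Y120.J.FF = 1 := by
    unfold Pool.Agent.Y120.J.FF
    rw [coeff_zero_eq_constantCoeff_apply, map_mul, ← coeff_zero_eq_constantCoeff_apply, ← coeff_zero_eq_constantCoeff_apply,
      coeff_mk, coeff_mk]
    simp [fu, fa]
  have hGG0 : coeff 0 Pool.Agent.Y120.J.GG = 0 := by
    unfold Pool.Agent.Y120.J.GG
    rw [coeff_zero_eq_constantCoeff_apply, map_mul, ← coeff_zero_eq_constantCoeff_apply, ← coeff_zero_eq_constantCoeff_apply,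
      coeff_mk, coeff_mk]
    simp [fb]
  cases s
  · have hT : T1n ≠ 0 := by
      intro h0
      have := congrArg (Polynomial.eval 0) h0
      simp [T1n] at this
    have h3' : rs Pool.Agent.Y120.J.FF * rs G1 - rs F1 * rs Pool.Agent.Y120.J.GG = 1 := by
      have := congrArg rs h3
      rwa [map_sub, map_mul, map_mul, map_one] at this
    have h1' : ps T1n * (X * d⁄dX ℚ (rs F1)) = ps Q1n * rs Pool.Agent.Y120.J.FF := by
      have := congrArg rs h1
      rwa [map_mul, map_mul rs (ps Q1), ← theta_rs, rs_T1, rs_Q1] at this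
    have h2' : ps T1n * (X * d⁄dX ℚ (rs G1) + rs F1) = ps Q1n * rs Pool.Agent.Y120.J.GG := by
      have := congrArg rs h2
      rwa [map_mul, map_mul rs (ps Q1), map_add, ← theta_rs, rs_T1, rs_Q1] at this
    have hF1' : rs F1 = X * d⁄dX ℚ (rs Pool.Agent.Y120.J.FF) := by
      rw [theta_rs]
      rfl
    have hG1' : rs G1 = X * d⁄dX ℚ (rs Pool.Agent.Y120.J.GG) + rs Pool.Agent.Y120.J.FF := by
      rw [theta_rs, ← map_add]
      rfl
    rw [hF1'] at h1' h2' h3'
    rw [hG1'] at h2' h3'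
    refine ⟨T1n, Q1n, rs Pool.Agent.Y120.J.FF, rs Pool.Agent.Y120.J.GG, ⟨hT, h1', h2', h3', SDc_rs hF, SDc_rs hG, ?_, ?_⟩, ?_⟩
    · rw [coeff_zero_rs]
      exact hFF0
    · rw [coeff_zero_rs]
      exact hGG0
    · unfold h4
      rw [← hF1', ← hG1']
      funext a
      fin_cases a <;> rfl
  · have hT : T1 ≠ 0 := by
      intro h0
      have := congrArg (Polynomial.eval 0) h0
      simp [T1] at this
    refine ⟨T1, Q1, Pool.Agent.Y120.J.FF, Pool.Agent.Y120.J.GG, ⟨hT, h1, h2, h3, hF, hG, hFF0, hGG0⟩, ?_⟩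
    rw [hS_true]
    funext a
    fin_cases a <;> rfl

/-- one sign -/
theorem mod_sign (s : Bool) : ∃ R : ℕ, ∀ k δ D : ℕ, ∃ E : ℕ, ∀ H t : ℕ, (H + 2) ^ E ≤ t → ∀ g : Fin k → ℕ, SepR R g →
    (∀ l, g l ≤ H) → ∀ z : Fin k → UpperHalfPlane, (∀ l, jj (z l) = ((si s * ((t - g l : ℕ) : ℤ) : ℤ) : ℂ)) →
      ∀ (K : IntermediateField ℚ ℂ) [FiniteDimensional ℚ K], finrank ℚ K ≤ D →
        ∃ σ : Fin (k * 4 - 1) → Option (Fin k × Option (Fin 3)), Function.Injective σ ∧
          LIb K δ (fun i => nl (fun l => t - g l) (fun l => (z l : ℂ)) (σ i)) := by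
  obtain ⟨T, Q, F, G, hd, hh⟩ := qd s
  exact mod_main s hd hh

/-- **All tuples** of integers of a window, of one sign -/
theorem mod_win : ∃ G : ℕ, ∀ k δ D : ℕ, ∃ (c : ℝ) (N₀ : ℕ), 0 < c ∧ ∀ N : ℕ, N₀ ≤ N → ∀ (s : Bool) (n : Fin k → ℕ),
    (∀ l, N ≤ n l ∧ (n l : ℝ) ≤ N + (N : ℝ) ^ c) → (∀ l l', l ≠ l' → (G : ℤ) ≤ |(n l : ℤ) - n l'|) →
      ∀ z : Fin k → UpperHalfPlane, (∀ l, jj (z l) = ((si s * (n l : ℤ) : ℤ) : ℂ)) →
        ∀ (K : IntermediateField ℚ ℂ) [FiniteDimensional ℚ K], finrank ℚ K ≤ D →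
          ∃ σ : Fin (k * 4 - 1) → Option (Fin k × Option (Fin 3)), Function.Injective σ ∧
            LIb K δ (fun i => nl n (fun l => (z l : ℂ)) (σ i)) := by
  obtain ⟨R₁, h₁⟩ := mod_sign true
  obtain ⟨R₂, h₂⟩ := mod_sign false
  refine ⟨max R₁ R₂, fun k δ D => ?_⟩
  obtain ⟨E₁, hE₁⟩ := h₁ k δ D
  obtain ⟨E₂, hE₂⟩ := h₂ k δ D
  obtain ⟨c, N₀, hc, hw⟩ := Pool.Agent.Y124.TD.window (max E₁ E₂) (max R₁ R₂)
  refine ⟨c, N₀, hc, fun N hN s n hn hsep z hz K _ hK => ?_⟩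
  set R := max R₁ R₂ with hR
  set H := ⌊(N : ℝ) ^ c⌋₊ with hH
  have hle : ∀ j, n j ≤ N + H := by
    intro j
    have h1 := (hn j).2
    have h2 : ((n j - N : ℕ) : ℝ) ≤ (N : ℝ) ^ c := by
      rw [Nat.cast_sub (hn j).1]
      linarith
    have h3 := Nat.le_floor h2
    have := (hn j).1
    omega
  have hTg : ∀ l, N + (H + R) - (N + (H + R) - n l) = n l := fun l => by
    have := hle l
    omega
  have hw' := hw N hN
  have hsepR : ∀ R' ≤ R, SepR R' (fun l => N + (H + R) - n l) := by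
    intro R' hR'
    refine ⟨fun l => ?_, fun l l' hll => ?_⟩
    · have h5 := hle l
      show R' ≤ N + (H + R) - n l
      omega
    · have h4 := hsep l l' hll
      have h5 := hle l
      have h6 := hle l'
      show N + (H + R) - n l + R' ≤ N + (H + R) - n l' ∨ N + (H + R) - n l' + R' ≤ N + (H + R) - n l
      rcases le_total (n l) (n l') with h7 | h7
      · right
        rw [abs_of_nonpos (by omega)] at h4
        omega
      · left
        rw [abs_of_nonneg (by omega)] at h4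
        omega
  have hgH : ∀ l, N + (H + R) - n l ≤ H + R := fun l => by
    have := (hn l).1
    omega
  have hzz : ∀ l, jj (z l) = ((si s * ((N + (H + R) - (N + (H + R) - n l) : ℕ) : ℤ) : ℤ) : ℂ) := fun l => by
    rw [hTg]
    exact hz l
  have hfin : (∃ σ : Fin (k * 4 - 1) → Option (Fin k × Option (Fin 3)), Function.Injective σ ∧
      LIb K δ (fun i => nl (fun l => N + (H + R) - (N + (H + R) - n l)) (fun l => (z l : ℂ)) (σ i))) →
      ∃ σ : Fin (k * 4 - 1) → Option (Fin k × Option (Fin 3)), Function.Injective σ ∧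
        LIb K δ (fun i => nl n (fun l => (z l : ℂ)) (σ i)) := by
    rintro ⟨σ, h1, h2⟩
    refine ⟨σ, h1, ?_⟩
    simp only [hTg] at h2
    exact h2
  apply hfin
  cases s
  · exact hE₂ (H + R) (N + (H + R)) (((Nat.pow_le_pow_right (by omega) (le_max_right _ _)).trans hw').trans (Nat.le_add_right _ _))
      (fun l => N + (H + R) - n l) (hsepR _ (le_max_right _ _)) hgH z hzz K hK
  · exact hE₁ (H + R) (N + (H + R)) (((Nat.pow_le_pow_right (by omega) (le_max_left _ _)).trans hw').trans (Nat.le_add_right _ _))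
      (fun l => N + (H + R) - n l) (hsepR _ (le_max_left _ _)) hgH z hzz K hK

end Pool.Agent.Y124.TM
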