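import Pool.Agent.Y124.TM.Qd
import Pool.Agent.Y120.J.WinA

/-!
# The modular invariant: independence
-/

set_option autoImplicit false

open PowerSeries Pool.Agent.Y113 Pool.Agent.Y120.GF Pool.Agent.Y120.GH Pool.Agent.Y120.R Pool.Agent.Y120.J

namespace Pool.Agent.Y124.TM

open Pool.Agent.Y124.TL Pool.Agent.Y124.TD

/-- algebraic independence of a pair from that of a pair of polynomials in its members -/
lemma ind_of_sub {R A : Type} [CommRing R] [IsDomain R] [CommRing A] [IsDomain A] [Algebra R A] {x y : Fin 2 → A}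
    (hy : AlgebraicIndependent R y) (hsub : ∀ i, y i ∈ Algebra.adjoin R (Set.range x)) : AlgebraicIndependent R x := by
  set S := Algebra.adjoin R (Set.range x) with hS
  let x' : Fin 2 → S := fun i => ⟨x i, Algebra.subset_adjoin ⟨i, rfl⟩⟩
  let y' : Fin 2 → S := fun i => ⟨y i, hsub i⟩
  have hy' : AlgebraicIndependent R y' := AlgebraicIndependent.of_comp S.val (x := y') hy
  have le : Cardinal.mk (Fin 2) ≤ Algebra.trdeg R S := hy'.cardinalMk_le_trdeg
  have htop : Algebra.adjoin R (Set.range x') = ⊤ := by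
    have h1 : (Algebra.adjoin R (Set.range x')).map S.val = S := by
      rw [← Algebra.adjoin_image, ← Set.range_comp]
      rfl
    have h2 : (⊤ : Subalgebra R S).map S.val = S := by
      rw [Algebra.map_top, Subalgebra.range_val]
    exact Subalgebra.map_injective (f := S.val) Subtype.val_injective (h1.trans h2.symm)
  haveI : Algebra.IsAlgebraic (Algebra.adjoin R (Set.range x')) S := by
    rw [htop]
    refine ⟨fun a => ?_⟩
    exact isAlgebraic_algebraMap (R := (⊤ : Subalgebra R S)) (A := S) ⟨a, Algebra.mem_top⟩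
  haveI : FaithfulSMul R S := (faithfulSMul_iff_algebraMap_injective R S).2 hy'.algebraMap_injective
  have h3 := Algebra.IsAlgebraic.isTranscendenceBasis_of_le_trdeg_of_finite R x' le
  exact h3.1.map' (f := S.val) Subtype.val_injective

lemma ou_aeval {R : ℝ} (hR : 0 ≤ R) {y : Fin 2 → PowerSeries ℂ} (hy : ∀ i, y i ∈ Cw R) {z : ℂ} (hz : R < ‖z‖)
    (p : MvPolynomial (Fin 2) (Polynomial ℂ)) : MvPolynomial.aeval y p ∈ Cw R ∧
      ou (MvPolynomial.aeval y p) z = MvPolynomial.eval₂Hom (Polynomial.evalRingHom (1 / z)) (fun i => ou (y i) z) p := by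
  induction p using MvPolynomial.induction_on with
  | C c =>
    have e : MvPolynomial.aeval y (MvPolynomial.C c : MvPolynomial (Fin 2) (Polynomial ℂ)) = (c : PowerSeries ℂ) := by
      rw [MvPolynomial.algHom_C, PowerSeries.algebraMap_apply', Algebra.algebraMap_self, PowerSeries.map_id]
      rfl
    rw [e]
    refine ⟨poly_mem _, ?_⟩
    rw [ou_poly, MvPolynomial.eval₂Hom_C]
    rfl
  | add p q hp hq =>
    rw [map_add, map_add]
    exact ⟨(Cw R).add_mem hp.1 hq.1, by rw [ou_add hR hp.1 hq.1 hz, hp.2, hq.2]⟩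
  | mul_X p i hp =>
    rw [map_mul, map_mul, MvPolynomial.aeval_X, MvPolynomial.eval₂Hom_X']
    exact ⟨(Cw R).mul_mem hp.1 (hy i), by rw [ou_mul hR hp.1 (hy i) hz, hp.2]⟩

lemma tpi_ne : tpi ≠ 0 := by
  unfold tpi
  simp [Real.pi_ne_zero, Complex.I_ne_zero]

lemma pS_zero (s : Bool) (t : ℝ) : pS s t 0 = tpi * (((ev t (hS s 0) : ℝ) : ℂ) * ((ev t (hS s 0) : ℝ) : ℂ)) := by
  have e : qS s 0 = MvPolynomial.C tpi * (MvPolynomial.X (some 0) * MvPolynomial.X (some 0)) := by
    unfold qS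
    split_ifs <;> rfl
  show MvPolynomial.aeval (p1 (hS s) t) (qS s 0) = _
  rw [e, map_mul, map_mul, MvPolynomial.algHom_C, MvPolynomial.aeval_X]
  rfl

lemma pS_two (s : Bool) (t : ℝ) : pS s t 2 = tpi * (((ev t (hS s 0) : ℝ) : ℂ) * ((ev t (hS s 2) : ℝ) : ℂ)) := by
  have e : qS s 2 = MvPolynomial.C tpi * (MvPolynomial.X (some 0) * MvPolynomial.X (some 2)) := by
    unfold qS
    split_ifs <;> rfl
  show MvPolynomial.aeval (p1 (hS s) t) (qS s 2) = _
  rw [e, map_mul, map_mul, MvPolynomial.algHom_C, MvPolynomial.aeval_X, MvPolynomial.aeval_X]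
  rfl

/-- the coefficient -/
noncomputable def kap (s : Bool) : ℚ := if s then 0 else 1 / 2

lemma pS_one (s : Bool) (t : ℝ) : pS s t 1 = ((ev t (hS s 0) : ℝ) : ℂ) * (((ev t (hS s 1) : ℝ) : ℂ) -
    ((Real.log t : ℝ) : ℂ) * ((ev t (hS s 0) : ℝ) : ℂ)) + (kap s : ℂ) * pS s t 0 := by
  rw [pS_zero]
  cases s
  · show MvPolynomial.aeval (p1 (hS false) t) (qJ 1 + MvPolynomial.C (1 / 2) * qJ 0) = _
    rw [map_add, map_mul, MvPolynomial.algHom_C]
    have e0 : MvPolynomial.aeval (p1 (hS false) t) (qJ 0) =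
        tpi * (((ev t (hS false 0) : ℝ) : ℂ) * ((ev t (hS false 0) : ℝ) : ℂ)) := by
      show MvPolynomial.aeval (p1 (hS false) t) (MvPolynomial.C tpi * (MvPolynomial.X (some 0) * MvPolynomial.X (some 0))) = _
      rw [map_mul, map_mul, MvPolynomial.algHom_C, MvPolynomial.aeval_X]
      rfl
    have e1 : MvPolynomial.aeval (p1 (hS false) t) (qJ 1) = ((ev t (hS false 0) : ℝ) : ℂ) * (((ev t (hS false 1) : ℝ) : ℂ) -
        ((Real.log t : ℝ) : ℂ) * ((ev t (hS false 0) : ℝ) : ℂ)) := by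
      show MvPolynomial.aeval (p1 (hS false) t) (MvPolynomial.X (some 0) *
        (MvPolynomial.X (some 1) - MvPolynomial.X none * MvPolynomial.X (some 0))) = _
      rw [map_mul, map_sub, map_mul, MvPolynomial.aeval_X, MvPolynomial.aeval_X, MvPolynomial.aeval_X]
      rfl
    rw [e0, e1]
    unfold kap
    simp
  · show MvPolynomial.aeval (p1 (hS true) t) (qJ 1) = _
    have e1 : MvPolynomial.aeval (p1 (hS true) t) (qJ 1) = ((ev t (hS true 0) : ℝ) : ℂ) * (((ev t (hS true 1) : ℝ) : ℂ) -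
        ((Real.log t : ℝ) : ℂ) * ((ev t (hS true 0) : ℝ) : ℂ)) := by
      show MvPolynomial.aeval (p1 (hS true) t) (MvPolynomial.X (some 0) *
        (MvPolynomial.X (some 1) - MvPolynomial.X none * MvPolynomial.X (some 0))) = _
      rw [map_mul, map_sub, map_mul, MvPolynomial.aeval_X, MvPolynomial.aeval_X, MvPolynomial.aeval_X]
      rfl
    rw [e1]
    unfold kap
    simp

/-- to polynomials in `1 / t` and the period functions -/
noncomputable def fwd : MvPolynomial (Fin 2) (Polynomial ℂ) →+* MvPolynomial (Option (Fin 3)) ℂ :=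
  MvPolynomial.eval₂Hom (Polynomial.eval₂RingHom MvPolynomial.C (MvPolynomial.X none))
    ![MvPolynomial.C tpi⁻¹ * MvPolynomial.X (some 0), MvPolynomial.C tpi⁻¹ * MvPolynomial.X (some 2)]

/-- the way back -/
noncomputable def bwd : MvPolynomial (Option (Fin 3)) ℂ →+* MvPolynomial (Fin 2) (Polynomial ℂ) :=
  MvPolynomial.eval₂Hom ((MvPolynomial.C).comp Polynomial.C) fun o => o.elim (MvPolynomial.C Polynomial.X)
    ![MvPolynomial.C (Polynomial.C tpi) * MvPolynomial.X 0, 0, MvPolynomial.C (Polynomial.C tpi) * MvPolynomial.X 1]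

lemma bwd_fwd : bwd.comp fwd = RingHom.id _ := by
  apply MvPolynomial.ringHom_ext'
  · apply Polynomial.ringHom_ext'
    · apply RingHom.ext
      intro c
      simp [fwd, bwd]
    · simp [fwd, bwd]
  · intro i
    fin_cases i
    · show bwd (fwd (MvPolynomial.X 0)) = MvPolynomial.X 0
      rw [fwd, MvPolynomial.eval₂Hom_X']
      show bwd (MvPolynomial.C tpi⁻¹ * MvPolynomial.X (some 0)) = _
      rw [map_mul, bwd, MvPolynomial.eval₂Hom_C, MvPolynomial.eval₂Hom_X']
      show MvPolynomial.C (Polynomial.C tpi⁻¹) * (MvPolynomial.C (Polynomial.C tpi) * MvPolynomial.X 0) = _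
      rw [← mul_assoc, ← map_mul, ← map_mul, inv_mul_cancel₀ tpi_ne, map_one, map_one, one_mul]
    · show bwd (fwd (MvPolynomial.X 1)) = MvPolynomial.X 1
      rw [fwd, MvPolynomial.eval₂Hom_X']
      show bwd (MvPolynomial.C tpi⁻¹ * MvPolynomial.X (some 2)) = _
      rw [map_mul, bwd, MvPolynomial.eval₂Hom_C, MvPolynomial.eval₂Hom_X']
      show MvPolynomial.C (Polynomial.C tpi⁻¹) * (MvPolynomial.C (Polynomial.C tpi) * MvPolynomial.X 1) = _
      rw [← mul_assoc, ← map_mul, ← map_mul, inv_mul_cancel₀ tpi_ne, map_one, map_one, one_mul]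

lemma eval_fwd (x : Option (Fin 3) → ℂ) (p : MvPolynomial (Fin 2) (Polynomial ℂ)) : MvPolynomial.eval x (fwd p) =
    MvPolynomial.eval₂Hom (Polynomial.evalRingHom (x none)) ![tpi⁻¹ * x (some 0), tpi⁻¹ * x (some 2)] p := by
  have h : (MvPolynomial.eval x).comp fwd =
      MvPolynomial.eval₂Hom (Polynomial.evalRingHom (x none)) ![tpi⁻¹ * x (some 0), tpi⁻¹ * x (some 2)] := by
    apply MvPolynomial.ringHom_ext'
    · apply Polynomial.ringHom_ext'
      · apply RingHom.ext
        intro c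
        simp [fwd]
      · simp [fwd]
    · intro i
      fin_cases i <;> simp [fwd]
  exact congrArg (fun f : MvPolynomial (Fin 2) (Polynomial ℂ) →+* ℂ => f p) h

/-- independence of the solution and its derivative -/
theorem li2 {s : Bool} (hDN : T_DN s) {C : ℝ} (hC : 1 ≤ C)
    (hb : ∀ i m, |((coeff m (hS s i) : ℚ) : ℝ)| ≤ C ^ (m + 1)) (P : RR) (hP : evm (cx (hS s 0)) (cx (hS s 2)) 1 P = 0) :
    P = 0 := by
  have hC0 : (0 : ℝ) ≤ C := by linarith
  have hA : cx (hS s 0) ∈ Cw C := cx_mem hC0 (hb 0)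
  have hB : cx (hS s 2) ∈ Cw C := cx_mem hC0 (hb 2)
  have hy : AlgebraicIndependent (Polynomial ℂ) (![cx (hS s 0) * cx (hS s 0), cx (hS s 0) * cx (hS s 2)] : Fin 2 → PowerSeries ℂ) := by
    rw [algebraicIndependent_iff]
    intro p hp
    have h0 : fwd p = 0 := by
      refine hDN C _ fun t ht => ?_
      have ht0 : 0 < t := by linarith
      have hz : C < ‖(t : ℂ)‖ := by
        rw [Complex.norm_real, Real.norm_of_nonneg ht0.le]
        exact ht
      have h1 := (ou_aeval hC0 (y := ![cx (hS s 0) * cx (hS s 0), cx (hS s 0) * cx (hS s 2)]) (by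
        intro i
        fin_cases i
        · exact (Cw C).mul_mem hA hA
        · exact (Cw C).mul_mem hA hB) hz p).2
      rw [hp, ou_zero] at h1
      rw [eval_fwd]
      have h2 : (fun i => ou ((![cx (hS s 0) * cx (hS s 0), cx (hS s 0) * cx (hS s 2)] : Fin 2 → PowerSeries ℂ) i) (t : ℂ)) =
          ![tpi⁻¹ * pS s t 0, tpi⁻¹ * pS s t 2] := by
        funext i
        fin_cases i
        · show ou (cx (hS s 0) * cx (hS s 0)) (t : ℂ) = tpi⁻¹ * pS s t 0
          rw [ou_mul hC0 hA hA hz, ou_ev, pS_zero, inv_mul_cancel_left₀ tpi_ne]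
        · show ou (cx (hS s 0) * cx (hS s 2)) (t : ℂ) = tpi⁻¹ * pS s t 2
          rw [ou_mul hC0 hA hB hz, ou_ev, ou_ev, pS_two, inv_mul_cancel_left₀ tpi_ne]
      rw [h2] at h1
      exact h1.symm
    have h1 := congrArg (fun f : MvPolynomial (Fin 2) (Polynomial ℂ) →+* MvPolynomial (Fin 2) (Polynomial ℂ) => f p) bwd_fwd
    have h2 : bwd (fwd p) = p := h1
    rw [← h2, h0, map_zero]
  have hx : AlgebraicIndependent (Polynomial ℂ) (![cx (hS s 0), cx (hS s 2)] : Fin 2 → PowerSeries ℂ) := by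
    refine ind_of_sub hy fun i => ?_
    have m0 : cx (hS s 0) ∈ Algebra.adjoin (Polynomial ℂ) (Set.range (![cx (hS s 0), cx (hS s 2)] : Fin 2 → PowerSeries ℂ)) :=
      Algebra.subset_adjoin ⟨0, rfl⟩
    have m1 : cx (hS s 2) ∈ Algebra.adjoin (Polynomial ℂ) (Set.range (![cx (hS s 0), cx (hS s 2)] : Fin 2 → PowerSeries ℂ)) :=
      Algebra.subset_adjoin ⟨1, rfl⟩
    fin_cases i
    · exact mul_mem m0 m0
    · exact mul_mem m0 m1
  have he : evm (cx (hS s 0)) (cx (hS s 2)) 1 = (MvPolynomial.aeval (R := Polynomial ℂ) (![cx (hS s 0), cx (hS s 2)] : Fin 2 → PowerSeries ℂ)).toRingHom := by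
    apply MvPolynomial.ringHom_ext
    · intro r
      rw [evm_C]
      show _ = MvPolynomial.aeval (![cx (hS s 0), cx (hS s 2)] : Fin 2 → PowerSeries ℂ) (MvPolynomial.C r)
      rw [MvPolynomial.algHom_C, PowerSeries.algebraMap_apply', Algebra.algebraMap_self, PowerSeries.map_id]
      rfl
    · intro i
      rw [evm_X, map_one, one_mul]
      show _ = MvPolynomial.aeval (![cx (hS s 0), cx (hS s 2)] : Fin 2 → PowerSeries ℂ) (MvPolynomial.X i)
      rw [MvPolynomial.aeval_X]
  rw [he] at hP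
  exact (algebraicIndependent_iff.1 hx) P hP

end Pool.Agent.Y124.TM
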