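import Pool.Agent.Y124.TM.Li
import Pool.Agent.Y124.TH.Ca
import Pool.Agent.Y124.TL.Rf

/-!
# The modular invariant at all tuples of integers of a window
-/

set_option autoImplicit false

open PowerSeries Pool.Agent.Y113 Pool.Agent.Y120.GF Pool.Agent.Y120.GH Pool.Agent.Y120.R Pool.Agent.Y120.J Module
open Pool.Agent.TH21.MS (jj)

namespace Pool.Agent.Y124.TM

open Pool.Agent.Y124.TL Pool.Agent.Y124.TD Pool.Agent.Y124.TG

/-- solving for the period functions -/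
lemma inv_pt {a b c d m Z0 Z1 Z2 z p q : ℂ} (hdet : a * d - b * c = 1) (hm : m ≠ 0) (hZ0 : Z0 ≠ 0)
    (hu : c * Z1 + d * Z0 ≠ 0) (hz : z = (a * Z1 + b * Z0) / (c * Z1 + d * Z0))
    (hp : p = (-m * (c * Z1 + d * Z0) ^ 2) / Z0)
    (hq : q = (m * (c * Z1 + d * Z0) ^ 3 * ((c * Z1 + d * Z0) * (Z0 - 2 * Z2) - 2 * c * Z0)) / Z0 ^ 3) :
    p ≠ 0 ∧ m * Z0 = -(p * (a - c * z) ^ 2) ∧ m * Z1 = -(p * (a - c * z) * (d * z - b)) ∧
      2 * (p * Z2) = p * Z0 - (a - c * z) * (2 * c * p - (a - c * z) * q) := by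
  set u := c * Z1 + d * Z0 with hud
  have hA : a - c * z = Z0 / u := by
    rw [hz, eq_div_iff hu, sub_mul, mul_assoc, div_mul_cancel₀ _ hu, hud]
    linear_combination Z0 * hdet
  have hB : d * z - b = Z1 / u := by
    rw [hz, eq_div_iff hu, sub_mul, mul_assoc, div_mul_cancel₀ _ hu, hud]
    linear_combination Z1 * hdet
  rw [hA, hB]
  refine ⟨?_, ?_, ?_, ?_⟩
  · rw [hp]
    exact div_ne_zero (mul_ne_zero (neg_ne_zero.2 hm) (pow_ne_zero 2 hu)) hZ0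
  · rw [hp]
    field_simp
  · rw [hp]
    field_simp
  · rw [hp, hq]
    field_simp
    ring

lemma mZ {K : IntermediateField ℚ ℂ} {W : Submodule K ℂ} (a : ℤ) {x : ℂ} (hx : x ∈ W) : (a : ℂ) * x ∈ W := by
  have h := mQ (a : ℚ) hx
  push_cast at h
  exact h

/-- the numbers `log n`, `z`, `j'(z)`, `j''(z)` -/
noncomputable def nb (n : ℕ) (z : ℂ) (o : Option (Fin 3)) : ℂ := o.elim ((Real.log (n : ℝ) : ℝ) : ℂ) (jt z)

/-- the numbers `2 π i`, `log n`, `z`, `j'(z)`, `j''(z)` -/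
noncomputable def nl {k : ℕ} (n : Fin k → ℕ) (z : Fin k → ℂ) (o : Option (Fin k × Option (Fin 3))) : ℂ :=
  o.elim tpi fun v => nb (n v.1) (z v.1) v.2

/-- one point -/
lemma one_pt {K : IntermediateField ℚ ℂ} {V : Submodule K ℂ} (h1 : (1 : ℂ) ∈ V) {m : ℤ} (hm : m ≠ 0)
    {Z : Fin 3 → ℂ} {w z : UpperHalfPlane} (hZ0 : Z 0 ≠ 0) (hw : (w : ℂ) * Z 0 = Z 1)
    (hd1 : deriv jj w = -m * Z 0) (hd2 : deriv (deriv jj) w = m * (Z 0 ^ 2 - 2 * Z 0 * Z 2))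
    (γ : Matrix.SpecialLinearGroup (Fin 2) ℤ) (hz : z = γ • w) (hV : ∀ j, jt z j ∈ V) :
    jt z 1 ≠ 0 ∧ Z 0 ∈ V ^ 3 ∧ Z 1 ∈ V ^ 3 ∧ jt z 1 * Z 2 ∈ V ^ 4 := by
  obtain ⟨hne, hval⟩ := ptsS hZ0 hw hd1 hd2 γ hz
  have hdet : (γ 0 0 : ℂ) * γ 1 1 - γ 0 1 * γ 1 0 = 1 := by
    have h := γ.2
    rw [Matrix.det_fin_two] at h
    exact_mod_cast h
  have hmc : (m : ℂ) ≠ 0 := by exact_mod_cast hm
  have n0 := hne 0
  have v0 := hval 0
  have v1 := hval 1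
  have v2 := hval 2
  rw [e2_mm] at n0 v0 v1 v2
  rw [e2_nn] at v0 v1 v2
  obtain ⟨hp, e0, e1, e2'⟩ := inv_pt (z := jt z 0) (p := jt z 1) (q := jt z 2) hdet hmc hZ0 n0 v0 v1 v2
  have hA : (γ 0 0 : ℂ) - γ 1 0 * jt z 0 ∈ V ^ 1 := by
    rw [pow_one]
    refine Submodule.sub_mem _ ?_ (mZ _ (hV 0))
    have := mZ (K := K) (W := V) (γ 0 0) h1
    rwa [mul_one] at this
  have hB : (γ 1 1 : ℂ) * jt z 0 - γ 0 1 ∈ V ^ 1 := by
    rw [pow_one]
    refine Submodule.sub_mem _ (mZ _ (hV 0)) ?_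
    have := mZ (K := K) (W := V) (γ 0 1) h1
    rwa [mul_one] at this
  have hJ1 : jt z 1 ∈ V ^ 1 := by
    rw [pow_one]
    exact hV 1
  have hJ2 : jt z 2 ∈ V ^ 1 := by
    rw [pow_one]
    exact hV 2
  have hdiv : ∀ {x y : ℂ} {a : ℕ}, (m : ℂ) * x = -y → y ∈ V ^ a → x ∈ V ^ a := by
    intro x y a h hy
    have h2 : x = ((-(1 / (m : ℚ)) : ℚ) : ℂ) * y := by
      push_cast
      field_simp
      linear_combination h
    rw [h2]
    exact mQ _ hy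
  have m0 : Z 0 ∈ V ^ 3 := by
    refine hdiv e0 ?_
    rw [pow_two]
    exact pow_mem_add (a := 1) (b := 2) hJ1 (pow_mem_add (a := 1) (b := 1) hA hA)
  have m1 : Z 1 ∈ V ^ 3 := by
    refine hdiv e1 ?_
    exact pow_mem_add (a := 2) (b := 1) (pow_mem_add (a := 1) (b := 1) hJ1 hA) hB
  refine ⟨hp, m0, m1, ?_⟩
  have h2 : jt z 1 * Z 2 = ((1 / 2 : ℚ) : ℂ) * (jt z 1 * Z 0 - ((γ 0 0 : ℂ) - γ 1 0 * jt z 0) *
      (((2 * γ 1 0 : ℤ) : ℂ) * jt z 1 - ((γ 0 0 : ℂ) - γ 1 0 * jt z 0) * jt z 2)) := by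
    push_cast
    linear_combination (1 / 2 : ℂ) * e2'
  rw [h2]
  refine mQ _ (Submodule.sub_mem _ (pow_mem_add (a := 1) (b := 3) hJ1 m0) ?_)
  refine pow_mem_mono h1 (by norm_num : 1 + 2 ≤ 4) (pow_mem_add (a := 1) (b := 2) hA (Submodule.sub_mem _ ?_ ?_))
  · exact pow_mem_mono h1 (by norm_num : 1 ≤ 2) (mZ _ hJ1)
  · exact pow_mem_add (a := 1) (b := 1) hA hJ2

/-- **The main theorem** for integers of one sign -/
theorem mod_main (s : Bool) {T Q : Polynomial ℤ} {F G : ℚ⟦X⟧} (hd : QD T Q F G) (hh : h4 F G = hS s) :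
    ∃ R : ℕ, ∀ k δ D : ℕ, ∃ E : ℕ, ∀ H t : ℕ, (H + 2) ^ E ≤ t → ∀ g : Fin k → ℕ, SepR R g → (∀ l, g l ≤ H) →
      ∀ z : Fin k → UpperHalfPlane, (∀ l, jj (z l) = ((si s * ((t - g l : ℕ) : ℤ) : ℤ) : ℂ)) →
        ∀ (K : IntermediateField ℚ ℂ) [FiniteDimensional ℚ K], finrank ℚ K ≤ D →
          ∃ σ : Fin (k * 4 - 1) → Option (Fin k × Option (Fin 3)), Function.Injective σ ∧
            LIb K δ (fun i => nl (fun l => t - g l) (fun l => (z l : ℂ)) (σ i)) := by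
  classical
  obtain ⟨A, hGF⟩ := gf4 hd
  obtain ⟨C, hC, hCb⟩ := hGF.size'
  rw [hh] at hCb
  have hLI : ∀ P : RR, evm (cx F) (cx (X * d⁄dX ℚ F)) 1 P = 0 → P = 0 := by
    have e0 : F = hS s 0 := by rw [← hh]; rfl
    have e2 : X * d⁄dX ℚ F = hS s 2 := by rw [← hh]; rfl
    intro P hP
    rw [e2, e0] at hP
    exact li2 (all_DN s) hC hCb P hP
  have hT := ind3 hd hLI
  obtain ⟨R, hbase⟩ := base hGF
  rw [hh] at hT hbase
  obtain ⟨t₁, hpt⟩ := all_PT s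
  obtain ⟨c₂, hc₂⟩ := Pool.Agent.Y678.HG.exists_two_pow (|t₁| + C + 1)
  have hlarge : ∀ {E H t g : ℕ}, (H + 2) ^ (E + (c₂ + 1)) ≤ t → g ≤ H → (H + 2) ^ E ≤ t ∧ t₁ ≤ ((t - g : ℕ) : ℝ) ∧ g < t := by
    intro E H t g ht hg
    have h5 := Pool.Agent.Y113.GG.sub_large (c := c₂) (by omega : c₂ + 1 ≤ E + (c₂ + 1)) ht hg
    have h6 : (2 : ℝ) ^ c₂ ≤ ((t - g : ℕ) : ℝ) := by exact_mod_cast h5
    have h7 : |t₁| + C + 1 ≤ ((t - g : ℕ) : ℝ) := hc₂.trans h6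
    refine ⟨(Nat.pow_le_pow_right (by omega) (by omega)).trans ht, ?_, ?_⟩
    · have := le_abs_self t₁
      linarith
    · have : 1 ≤ 2 ^ c₂ := Nat.one_le_two_pow
      omega
  refine ⟨R, fun k δ D => ?_⟩
  choose Φ hΦ using fun c e : ℕ => gr_algs2 c (e + 1) 3 2 k
  obtain ⟨N₁, hN₁⟩ := Pool.Agent.Y124.TH.core_abs (k * 4) δ D 1 (5 * k) (k * 4 + 1) Φ
  obtain ⟨E, hE⟩ := hbase T3 hT N₁ k
  refine ⟨E + (c₂ + 1), ?_⟩
  intro H t hHt g hg hgH z hz K _ hK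
  have hcard1 : Fintype.card (Fin k × Option (Fin 3)) = k * 4 := by
    rw [Fintype.card_prod, Fintype.card_option, Fintype.card_fin, Fintype.card_fin]
  have hcard2 : Fintype.card (Option (Fin k × Option (Fin 3))) = k * 4 + 1 := by
    rw [Fintype.card_option, hcard1]
  have h1 := (hlarge (E := E) (g := 0) hHt (Nat.zero_le _)).1
  refine hN₁ K hK _ hcard2 (nl (fun l => t - g l) fun l => (z l : ℂ)) _ hcard1 (fun i => xv (hS s) T3 t (g i.1) i.2)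
    (fun c e W₁ h1W hzW hGR => ?_) (hE H t h1 g hg hgH)
  -- the constant
  obtain ⟨V₁, hV₁, hωV, hG₁⟩ := gr_fam c 1 e W₁ h1W hGR ![((Real.log t : ℝ) : ℂ)]
  have h11 : (1 : ℂ) ∈ V₁ := hV₁ h1W
  have hLt : ((Real.log t : ℝ) : ℂ) ∈ V₁ := hωV 0
  have hpiV : tpi ∈ V₁ := hV₁ (hzW none)
  have hJV : ∀ l j, jt (z l) j ∈ V₁ := fun l j => hV₁ (hzW (some (l, some j)))
  have hLV : ∀ l, ((Real.log ((t - g l : ℕ) : ℝ) : ℝ) : ℂ) ∈ V₁ := fun l => hV₁ (hzW (some (l, none)))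
  -- the points
  have hpts : ∀ l, ∃ (γ : Matrix.SpecialLinearGroup (Fin 2) ℤ) (w : UpperHalfPlane), z l = γ • w ∧
      pS s ((t - g l : ℕ) : ℝ) 0 ≠ 0 ∧ (w : ℂ) * pS s ((t - g l : ℕ) : ℝ) 0 = pS s ((t - g l : ℕ) : ℝ) 1 ∧
      deriv jj w = -((si s * ((t - g l : ℕ) : ℤ) : ℤ) : ℂ) * pS s ((t - g l : ℕ) : ℝ) 0 ∧
      deriv (deriv jj) w = ((si s * ((t - g l : ℕ) : ℤ) : ℤ) : ℂ) *
        (pS s ((t - g l : ℕ) : ℝ) 0 ^ 2 - 2 * pS s ((t - g l : ℕ) : ℝ) 0 * pS s ((t - g l : ℕ) : ℝ) 2) := by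
    intro l
    obtain ⟨γ, w, a1, a2, a3, a4, a5⟩ := hpt ((t - g l : ℕ) : ℝ) (z l) (hlarge (E := E) hHt (hgH l)).2.1 (by
      rw [hz l]
      push_cast
      rfl)
    refine ⟨γ, w, a1, a2, a3, ?_, ?_⟩
    · rw [a4]
      push_cast
      ring
    · rw [a5]
      push_cast
      ring
  choose γ w hγ hZ0 hw hd1 hd2 using hpts
  have hm0 : ∀ l, si s * ((t - g l : ℕ) : ℤ) ≠ 0 := by
    intro l
    have h5 := (hlarge (E := E) hHt (hgH l)).2.2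
    have h6 : si s ≠ 0 := by
      unfold si
      split_ifs <;> norm_num
    have h7 : ((t - g l : ℕ) : ℤ) ≠ 0 := by
      have : t - g l ≠ 0 := by omega
      exact_mod_cast this
    exact mul_ne_zero h6 h7
  -- the value of the solution
  set f : Fin k → ℂ := fun l => hv (hS s) ((t - g l : ℕ) : ℝ) 0 with hf
  have hf2 : ∀ l, pS s ((t - g l : ℕ) : ℝ) 0 = tpi * (f l * f l) := fun l => pS_zero s _
  have hf0 : ∀ l, f l ≠ 0 := by
    intro l h0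
    apply hZ0 l
    rw [hf2, h0, mul_zero, mul_zero]
  obtain ⟨V', hV', hfV, hG'⟩ := hΦ c e K V₁ h11 hG₁ (Fin k) (Fintype.card_fin k) f (fun l => by
    refine ⟨1, tpi, fun j => if j = 0 then pS s ((t - g l : ℕ) : ℝ) 0 else 0, le_rfl, tpi_ne, ?_, fun j => ?_, ?_⟩
    · exact pow_mem_mono h11 (by norm_num : 1 ≤ 3) (by rw [pow_one]; exact hpiV)
    · dsimp only
      split_ifs
      · exact (one_pt h11 (hm0 l) (hZ0 l) (hw l) (hd1 l) (hd2 l) (γ l) (hγ l) (hJV l)).2.1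
      · exact Submodule.zero_mem _
    · rw [Finset.sum_range_succ, Finset.sum_range_one]
      dsimp only
      rw [if_pos rfl, if_neg one_ne_zero, hf2]
      ring)
  have h12 : (1 : ℂ) ∈ V' := hV' h11
  have hP : ∀ l, jt (z l) 1 ≠ 0 ∧ pS s ((t - g l : ℕ) : ℝ) 0 ∈ V' ^ 3 ∧ pS s ((t - g l : ℕ) : ℝ) 1 ∈ V' ^ 3 ∧
      jt (z l) 1 * pS s ((t - g l : ℕ) : ℝ) 2 ∈ V' ^ 4 := fun l =>
    one_pt h12 (hm0 l) (hZ0 l) (hw l) (hd1 l) (hd2 l) (γ l) (hγ l) (fun j => hV' (hJV l j))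
  have hpi1 : tpi ∈ V' ^ 1 := by
    rw [pow_one]
    exact hV' hpiV
  have hf1 : ∀ l, f l ∈ V' ^ 1 := fun l => by
    rw [pow_one]
    exact hfV l
  have hJ1 : ∀ l, jt (z l) 1 ∈ V' ^ 1 := fun l => by
    rw [pow_one]
    exact hV' (hJV l 1)
  have hρ : ∀ l, tpi * f l * jt (z l) 1 ∈ V' ^ 3 := fun l =>
    pow_mem_add (a := 2) (b := 1) (pow_mem_add (a := 1) (b := 1) hpi1 (hf1 l)) (hJ1 l)
  have hcom := Pool.Agent.Y124.TH.common (W := V') (d := 5) (fun l => tpi * f l * jt (z l) 1)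
    (fun l o => xv (hS s) T3 t (g l) o) (fun l => pow_mem_mono h12 (by norm_num) (hρ l)) (fun l o => by
      rcases o with _ | o
      · show tpi * f l * jt (z l) 1 * ((Real.log (1 - g l / t) : ℝ) : ℂ) ∈ _
        have hgt := (hlarge (E := E) hHt (hgH l)).2.2
        have hlog : ((Real.log (1 - g l / t) : ℝ) : ℂ) =
            ((Real.log ((t - g l : ℕ) : ℝ) : ℝ) : ℂ) - ((Real.log t : ℝ) : ℂ) := by
          have h1 : (0 : ℝ) < t := by
            have : 0 < t := by omega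
            exact_mod_cast this
          have h2 : (0 : ℝ) < ((t - g l : ℕ) : ℝ) := by
            have : 0 < t - g l := by omega
            exact_mod_cast this
          have h3 : (1 : ℝ) - g l / t = ((t - g l : ℕ) : ℝ) / t := by
            rw [Nat.cast_sub hgt.le]
            field_simp
          rw [h3, Real.log_div h2.ne' h1.ne', Complex.ofReal_sub]
        rw [hlog]
        refine pow_mem_mono h12 (by norm_num : 3 + 1 ≤ 5) (pow_mem_add (hρ l) ?_)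
        rw [pow_one]
        exact Submodule.sub_mem _ (hV' (hLV l)) (hV' hLt)
      · fin_cases o
        · show tpi * f l * jt (z l) 1 * hv (hS s) ((t - g l : ℕ) : ℝ) 0 ∈ _
          exact pow_mem_mono h12 (by norm_num : 3 + 1 ≤ 5) (pow_mem_add (hρ l) (hf1 l))
        · show tpi * f l * jt (z l) 1 * hv (hS s) ((t - g l : ℕ) : ℝ) 2 ∈ _
          have e : tpi * f l * jt (z l) 1 * hv (hS s) ((t - g l : ℕ) : ℝ) 2 = jt (z l) 1 * pS s ((t - g l : ℕ) : ℝ) 2 := by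
            rw [pS_two]
            show tpi * f l * jt (z l) 1 * hv (hS s) ((t - g l : ℕ) : ℝ) 2 =
              jt (z l) 1 * (tpi * (f l * hv (hS s) ((t - g l : ℕ) : ℝ) 2))
            ring
          rw [e]
          exact pow_mem_mono h12 (by norm_num : 4 ≤ 5) (hP l).2.2.2
        · show tpi * f l * jt (z l) 1 * hv (hS s) ((t - g l : ℕ) : ℝ) 1 ∈ _
          have e : tpi * f l * jt (z l) 1 * hv (hS s) ((t - g l : ℕ) : ℝ) 1 = tpi * jt (z l) 1 *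
              (pS s ((t - g l : ℕ) : ℝ) 1 - (kap s : ℂ) * pS s ((t - g l : ℕ) : ℝ) 0 +
                ((Real.log ((t - g l : ℕ) : ℝ) : ℝ) : ℂ) * (f l * f l)) := by
            rw [pS_one]
            show tpi * f l * jt (z l) 1 * hv (hS s) ((t - g l : ℕ) : ℝ) 1 = tpi * jt (z l) 1 *
              (f l * (hv (hS s) ((t - g l : ℕ) : ℝ) 1 - ((Real.log ((t - g l : ℕ) : ℝ) : ℝ) : ℂ) * f l) +
                (kap s : ℂ) * pS s ((t - g l : ℕ) : ℝ) 0 - (kap s : ℂ) * pS s ((t - g l : ℕ) : ℝ) 0 +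
                ((Real.log ((t - g l : ℕ) : ℝ) : ℝ) : ℂ) * (f l * f l))
            ring
          rw [e]
          refine pow_mem_add (a := 2) (b := 3) (pow_mem_add (a := 1) (b := 1) hpi1 (hJ1 l))
            (Submodule.add_mem _ (Submodule.sub_mem _ (hP l).2.2.1 (mQ _ (hP l).2.1)) ?_)
          refine pow_mem_add (a := 1) (b := 2) ?_ (pow_mem_add (a := 1) (b := 1) (hf1 l) (hf1 l))
          rw [pow_one]
          exact hV' (hLV l))
  exact ⟨V', ∏ l, (tpi * f l * jt (z l) 1), h12, hG',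
    Finset.prod_ne_zero_iff.2 fun l _ => mul_ne_zero (mul_ne_zero tpi_ne (hf0 l)) (hP l).1, hcom.1, fun i => hcom.2 i.1 i.2⟩

end Pool.Agent.Y124.TM
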