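import Pool.Agent.Y120.J.FamWin
import Pool.Agent.Y124.TL.Ba
import Pool.Agent.Y124.TD.Bt

/-!
# Second order equations with a logarithmic solution
-/

set_option autoImplicit false

open PowerSeries Pool.Agent.Y113 Pool.Agent.Y120.GF Pool.Agent.Y120.GH Pool.Agent.Y119.HZ

namespace Pool.Agent.Y124.TM

open Pool.Agent.Y124.TL Pool.Agent.Y124.TD

/-- the data -/
structure QD (T Q : Polynomial ℤ) (F G : ℚ⟦X⟧) : Prop where
  ne : T ≠ 0
  e1 : ps T * (X * d⁄dX ℚ (X * d⁄dX ℚ F)) = ps Q * F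
  e2 : ps T * (X * d⁄dX ℚ (X * d⁄dX ℚ G + F) + X * d⁄dX ℚ F) = ps Q * G
  e3 : F * (X * d⁄dX ℚ G + F) - X * d⁄dX ℚ F * G = 1
  sF : SDc F
  sG : SDc G
  F0 : coeff 0 F = 1
  G0 : coeff 0 G = 0

/-- the family -/
noncomputable def h4 (F G : ℚ⟦X⟧) : Fin 4 → ℚ⟦X⟧ := ![F, G, X * d⁄dX ℚ F, X * d⁄dX ℚ G + F]

/-- the three members -/
def T3 : Fin 3 → Fin 4 := ![0, 2, 1]

variable {T Q : Polynomial ℤ} {F G : ℚ⟦X⟧}

theorem gf4 (hd : QD T Q F G) : ∃ A : Fin 4 → Fin 4 → Polynomial ℤ, GF (Polynomial.X * T) A (h4 F G) := by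
  obtain ⟨hT, h1, h2, h3, hF, hG, hFF0, hGG0⟩ := hd
  have hF1 : SDc (X * d⁄dX ℚ F) := SDc.X.mul hF.deriv
  have hG1 : SDc (X * d⁄dX ℚ G + F) := (SDc.X.mul hG.deriv).add hF
  set F1 : ℚ⟦X⟧ := X * d⁄dX ℚ F with hF1d
  set G1 : ℚ⟦X⟧ := X * d⁄dX ℚ G + F with hG1d
  set H : Matrix (Fin 2) (Fin 2) ℚ⟦X⟧ := !![F, G; F1, G1] with hH
  set W : Matrix (Fin 2) (Fin 2) ℚ⟦X⟧ := !![G1, -G; -F1, F] with hW
  have hF10 : coeff 0 F1 = 0 := by
    rw [hF1d, coeff_zero_eq_constantCoeff_apply, map_mul, constantCoeff_X, zero_mul]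
  have hG10 : coeff 0 G1 = 1 := by
    rw [hG1d, map_add, hFF0]
    rw [coeff_zero_eq_constantCoeff_apply, map_mul, constantCoeff_X, zero_mul, zero_add]
  set N : Matrix (Fin 2) (Fin 2) ℚ := !![0, 1; 0, 0] with hN
  have hN0 : N ^ 2 = 0 := by
    rw [pow_two]
    ext i j
    fin_cases i <;> fin_cases j <;> simp [hN, Matrix.mul_apply, Fin.sum_univ_two]
  have hNz : ∀ i j, (((![![0, 1], ![0, 0]] : Fin 2 → Fin 2 → ℤ) i j : ℤ) : ℚ) = N i j := by
    intro i j
    fin_cases i <;> fin_cases j <;> simp [hN]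
  have hHW : H * W = 1 := by
    rw [hH, hW, Matrix.mul_fin_two]
    refine Matrix.ext fun i j => ?_
    fin_cases i <;> fin_cases j
    · show F * G1 + G * -F1 = 1
      linear_combination h3
    · show F * -G + G * F = 0
      ring
    · show F1 * G1 + G1 * -F1 = 0
      ring
    · show F1 * -G + G1 * F = 1
      linear_combination h3
  have h0 : ∀ i j, coeff 0 (H i j) = if i = j then 1 else 0 := by
    intro i j
    fin_cases i <;> fin_cases j
    · exact hFF0
    · exact hGG0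
    · exact hF10
    · exact hG10
  have hode : ∀ i j, ps T * (X * d⁄dX ℚ (H i j) + ∑ k, H i k * C (N k j)) =
      ∑ k, ps ((![![0, T], ![Q, 0]] : Fin 2 → Fin 2 → Polynomial ℤ) i k) * H k j := by
    intro i j
    have h0 : ps (0 : Polynomial ℤ) = 0 := by
      unfold ps
      simp
    fin_cases i <;> fin_cases j
    · show ps T * (X * d⁄dX ℚ F + ∑ k, H 0 k * C ((!![0, 1; 0, 0] : Matrix (Fin 2) (Fin 2) ℚ) k 0)) =
        ∑ k, ps ((![![0, T], ![Q, 0]] : Fin 2 → Fin 2 → Polynomial ℤ) 0 k) * H k 0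
      rw [Fin.sum_univ_two, Fin.sum_univ_two]
      show ps T * (X * d⁄dX ℚ F + (F * C (0 : ℚ) + G * C (0 : ℚ))) = ps 0 * F + ps T * F1
      rw [h0, map_zero]
      ring
    · show ps T * (X * d⁄dX ℚ G + ∑ k, H 0 k * C ((!![0, 1; 0, 0] : Matrix (Fin 2) (Fin 2) ℚ) k 1)) =
        ∑ k, ps ((![![0, T], ![Q, 0]] : Fin 2 → Fin 2 → Polynomial ℤ) 0 k) * H k 1
      rw [Fin.sum_univ_two, Fin.sum_univ_two]
      show ps T * (X * d⁄dX ℚ G + (F * C (1 : ℚ) + G * C (0 : ℚ))) = ps 0 * G + ps T * G1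
      rw [h0, map_zero, map_one]
      ring
    · show ps T * (X * d⁄dX ℚ F1 + ∑ k, H 1 k * C ((!![0, 1; 0, 0] : Matrix (Fin 2) (Fin 2) ℚ) k 0)) =
        ∑ k, ps ((![![0, T], ![Q, 0]] : Fin 2 → Fin 2 → Polynomial ℤ) 1 k) * H k 0
      rw [Fin.sum_univ_two, Fin.sum_univ_two]
      show ps T * (X * d⁄dX ℚ F1 + (F1 * C (0 : ℚ) + G1 * C (0 : ℚ))) = ps Q * F + ps 0 * F1
      rw [h0, map_zero, ← h1]
      ring
    · show ps T * (X * d⁄dX ℚ G1 + ∑ k, H 1 k * C ((!![0, 1; 0, 0] : Matrix (Fin 2) (Fin 2) ℚ) k 1)) =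
        ∑ k, ps ((![![0, T], ![Q, 0]] : Fin 2 → Fin 2 → Polynomial ℤ) 1 k) * H k 1
      rw [Fin.sum_univ_two, Fin.sum_univ_two]
      show ps T * (X * d⁄dX ℚ G1 + (F1 * C (1 : ℚ) + G1 * C (0 : ℚ))) = ps Q * G + ps 0 * G1
      rw [h0, map_zero, map_one, ← h2]
      ring
  have hHs : ∀ i j, SDc (H i j) := by
    intro i j
    fin_cases i <;> fin_cases j
    · exact hF
    · exact hG
    · exact hF1
    · exact hG1
  have hWs : ∀ i j, SDc (W i j) := by
    intro i j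
    fin_cases i <;> fin_cases j
    · exact hG1
    · exact Pool.Agent.Y120.J.SDc_neg hG
    · exact Pool.Agent.Y120.J.SDc_neg hF1
    · exact hF
  obtain ⟨q, C₀, hGS⟩ := gsysL hN0 hHW hode hHs hWs
  have he : (fun a : Fin (2 * 2) => H (ix 2 a).1 (ix 2 a).2) = h4 F G := by
    funext a
    fin_cases a <;> rfl
  refine ⟨fun a c => A3 T ![![0, T], ![Q, 0]] ![![0, 1], ![0, 0]] (ix 2 a) (ix 2 c), mul_ne_zero Polynomial.X_ne_zero hT, ?_, ?_, ?_⟩
  · rw [← he]
    intro i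
    have h1 := ode_A3 hNz hode (ix 2 i)
    have h2 : ∑ j : Fin (2 * 2), ps (A3 T ![![0, T], ![Q, 0]] ![![0, 1], ![0, 0]] (ix 2 i) (ix 2 j)) * H (ix 2 j).1 (ix 2 j).2 =
        ∑ q, ps (A3 T ![![0, T], ![Q, 0]] ![![0, 1], ![0, 0]] (ix 2 i) q) * H q.1 q.2 :=
      Equiv.sum_comp (ix 2) fun q => ps (A3 T ![![0, T], ![Q, 0]] ![![0, 1], ![0, 0]] (ix 2 i) q) * H q.1 q.2
    exact h1.trans h2.symm
  · rw [← he]
    exact ⟨q, C₀, hGS.reindex (ix 2)⟩
  · exact qu_gen hN0 hNz h0 hode hHs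

/-! ### independence -/

/-- the passage to complex coefficients -/
noncomputable def iot : MvPolynomial (Fin 3) (Polynomial ℚ) →+* Polynomial RR :=
  MvPolynomial.eval₂Hom ((Polynomial.C (R := RR)).comp ((MvPolynomial.C).comp (Polynomial.mapRingHom (algebraMap ℚ ℂ))))
    ![Polynomial.C (MvPolynomial.X 0), Polynomial.C (MvPolynomial.X 1), Polynomial.X]

/-- the way back -/
noncomputable def rho' : Polynomial RR →+* MvPolynomial (Fin 3) (Polynomial ℂ) :=
  Polynomial.eval₂RingHom (MvPolynomial.eval₂Hom MvPolynomial.C ![MvPolynomial.X 0, MvPolynomial.X 1]) (MvPolynomial.X 2)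

lemma rho_iot : rho'.comp iot = MvPolynomial.map (Polynomial.mapRingHom (algebraMap ℚ ℂ)) := by
  apply MvPolynomial.ringHom_ext
  · intro r
    rw [RingHom.comp_apply, iot, MvPolynomial.eval₂Hom_C, MvPolynomial.map_C]
    simp only [RingHom.comp_apply]
    rw [rho', Polynomial.coe_eval₂RingHom, Polynomial.eval₂_C, MvPolynomial.eval₂Hom_C]
  · intro i
    rw [RingHom.comp_apply, iot, MvPolynomial.eval₂Hom_X', MvPolynomial.map_X]
    fin_cases i
    · show rho' (Polynomial.C (MvPolynomial.X 0)) = _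
      rw [rho', Polynomial.coe_eval₂RingHom, Polynomial.eval₂_C, MvPolynomial.eval₂Hom_X']
      rfl
    · show rho' (Polynomial.C (MvPolynomial.X 1)) = _
      rw [rho', Polynomial.coe_eval₂RingHom, Polynomial.eval₂_C, MvPolynomial.eval₂Hom_X']
      rfl
    · show rho' Polynomial.X = _
      rw [rho', Polynomial.coe_eval₂RingHom, Polynomial.eval₂_X]
      rfl

lemma iot_inj {p : MvPolynomial (Fin 3) (Polynomial ℚ)} (h : iot p = 0) : p = 0 := by
  have h1 := congrArg rho' h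
  rw [← RingHom.comp_apply, rho_iot, map_zero] at h1
  have hinj : Function.Injective (MvPolynomial.map (σ := Fin 3) (Polynomial.mapRingHom (algebraMap ℚ ℂ))) :=
    MvPolynomial.map_injective _ (Polynomial.map_injective _ (algebraMap ℚ ℂ).injective)
  exact hinj (by rw [h1, map_zero])

lemma iot_eval (A B T' : ℚ⟦X⟧) (p : MvPolynomial (Fin 3) (Polynomial ℚ)) :
    (iot p).eval₂ (evm (cx A) (cx B) 1) (cx T') = cx (MvPolynomial.aeval ![A, B, T'] p) := by
  have h : (Polynomial.eval₂RingHom (evm (cx A) (cx B) 1) (cx T')).comp iot =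
      cx.comp (MvPolynomial.aeval (R := Polynomial ℚ) ![A, B, T']).toRingHom := by
    apply MvPolynomial.ringHom_ext
    · intro r
      rw [RingHom.comp_apply, iot, MvPolynomial.eval₂Hom_C]
      simp only [RingHom.comp_apply]
      rw [Polynomial.coe_eval₂RingHom, Polynomial.eval₂_C, evm_C]
      show _ = cx (MvPolynomial.aeval ![A, B, T'] (MvPolynomial.C r))
      rw [MvPolynomial.algHom_C]
      show _ = cx (algebraMap (Polynomial ℚ) ℚ⟦X⟧ r)
      have e : algebraMap (Polynomial ℚ) ℚ⟦X⟧ r = (r : ℚ⟦X⟧) := by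
        rw [PowerSeries.algebraMap_apply', Algebra.algebraMap_self, PowerSeries.map_id]
        rfl
      rw [e, cx_poly]
      rfl
    · intro i
      rw [RingHom.comp_apply, iot, MvPolynomial.eval₂Hom_X']
      show _ = cx (MvPolynomial.aeval ![A, B, T'] (MvPolynomial.X i))
      rw [MvPolynomial.aeval_X]
      fin_cases i
      · show (Polynomial.eval₂RingHom (evm (cx A) (cx B) 1) (cx T')) (Polynomial.C (MvPolynomial.X 0)) = cx A
        rw [Polynomial.coe_eval₂RingHom, Polynomial.eval₂_C, evm_X, map_one, one_mul]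
        rfl
      · show (Polynomial.eval₂RingHom (evm (cx A) (cx B) 1) (cx T')) (Polynomial.C (MvPolynomial.X 1)) = cx B
        rw [Polynomial.coe_eval₂RingHom, Polynomial.eval₂_C, evm_X, map_one, one_mul]
        rfl
      · show (Polynomial.eval₂RingHom (evm (cx A) (cx B) 1) (cx T')) Polynomial.X = cx T'
        rw [Polynomial.coe_eval₂RingHom, Polynomial.eval₂_X]
  exact congrArg (fun f : MvPolynomial (Fin 3) (Polynomial ℚ) →+* ℂ⟦X⟧ => f p) h

/-- **The three members are algebraically independent** -/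
theorem ind3 (hd : QD T Q F G) (hLI : ∀ P : RR, evm (cx F) (cx (X * d⁄dX ℚ F)) 1 P = 0 → P = 0) :
    AlgebraicIndependent (Polynomial ℚ) (fun i => h4 F G (T3 i)) := by
  obtain ⟨hT, h1, h2, h3, hF, hG, hFF0, hGG0⟩ := hd
  have hTc : T.map (Int.castRingHom ℂ) ≠ 0 := (Polynomial.map_ne_zero_iff (Int.castRingHom ℂ).injective_int).2 hT
  have hX : cx (X : ℚ⟦X⟧) = X := by rw [cx, map_X]
  have c1 := congrArg cx h1
  have c3 := congrArg cx h3
  simp only [map_mul, map_add, map_sub, map_one, cx_der, cx_ps, hX] at c1 c3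
  have key := log_free (D := T.map (Int.castRingHom ℂ)) (a := 0) (b := T.map (Int.castRingHom ℂ)) (c := Q.map (Int.castRingHom ℂ))
    (e := 0) (G₀ := T.map (Int.castRingHom ℂ)) (A := cx F) (B := cx (X * d⁄dX ℚ F)) (T := cx G) (κ := -1) hTc (by norm_num)
    (by
      simp only [map_mul, cx_der, hX, Polynomial.coe_zero, zero_mul, zero_add])
    (by
      simp only [map_mul, cx_der, hX, Polynomial.coe_zero, zero_mul, add_zero]
      exact c1)
    (by
      simp only [map_mul, cx_der, hX, Polynomial.coe_zero, zero_mul, zero_add, map_neg, map_one]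
      linear_combination ((T.map (Int.castRingHom ℂ) : Polynomial ℂ) : ℂ⟦X⟧) * c3) hLI
  have he : (fun i => h4 F G (T3 i)) = ![F, X * d⁄dX ℚ F, G] := by
    funext i
    fin_cases i <;> rfl
  rw [he, algebraicIndependent_iff]
  intro p hp
  apply iot_inj
  apply key
  rw [iot_eval, hp, map_zero]

end Pool.Agent.Y124.TM
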